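import Pool.Agent.Helper28_TP.DyS

/-!
Squad TP, module CAP: structures of consecutive scales have many common blocks.
-/

set_option autoImplicit false

namespace Pool.Agent.TP.H53

open Pool.Agent.Helper33_FPP (Z2 dst Rect)

theorem adj_fst {u v : ℤ × ℤ} (h : Z2.Adj u v) : |u.1 - v.1| ≤ 1 := by
  rw [Pool.Agent.Helper33_FPP.Z2_adj_iff] at h
  rw [abs_le]
  omega

/-- a walk from the left of `a` to the column `b` contains a walk in the strip between the
columns `a` and `b` from the column `a` to the column `b` -/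
theorem cross {a b : ℤ} (hab : a ≤ b) : ∀ {u v : ℤ × ℤ} (q : Z2.Walk u v), u.1 ≤ a → b ≤ v.1 →
    ∃ (u' v' : ℤ × ℤ) (q' : Z2.Walk u' v'), u'.1 = a ∧ v'.1 = b ∧
      ∀ w ∈ q'.support, w ∈ q.support ∧ a ≤ w.1 ∧ w.1 ≤ b := by
  -- first: a walk from the left of `a`, stopped at the column `b`
  have h1 : ∀ {u v : ℤ × ℤ} (q : Z2.Walk u v), u.1 ≤ b → b ≤ v.1 →
      ∃ (v' : ℤ × ℤ) (q' : Z2.Walk u v'), v'.1 = b ∧
        ∀ w ∈ q'.support, w ∈ q.support ∧ w.1 ≤ b := by
    intro u v q
    induction q with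
    | nil =>
      intro hu hv
      refine ⟨_, SimpleGraph.Walk.nil, le_antisymm hu hv, ?_⟩
      intro w hw
      simp only [SimpleGraph.Walk.support_nil, List.mem_singleton] at hw ⊢
      subst hw
      exact ⟨rfl, hu⟩
    | @cons u v w hadj q ih =>
      intro hu hw
      by_cases hub : u.1 = b
      · refine ⟨u, SimpleGraph.Walk.nil, hub, ?_⟩
        intro x hx
        simp only [SimpleGraph.Walk.support_nil, List.mem_singleton] at hx
        subst hx
        exact ⟨by simp, hu⟩
      · have hv : v.1 ≤ b := by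
          have := abs_le.1 (adj_fst hadj)
          omega
        obtain ⟨v', q', hv', hq'⟩ := ih hv hw
        refine ⟨v', SimpleGraph.Walk.cons hadj q', hv', ?_⟩
        intro x hx
        rw [SimpleGraph.Walk.support_cons, List.mem_cons] at hx ⊢
        rcases hx with rfl | hx
        · exact ⟨Or.inl rfl, hu⟩
        · exact ⟨Or.inr (hq' x hx).1, (hq' x hx).2⟩
  have h2 : ∀ {u v : ℤ × ℤ} (q : Z2.Walk u v), v.1 = b → (∀ w ∈ q.support, w.1 ≤ b) →
      (∀ w ∈ q.support, a < w.1) ∨
      ∃ (u' v' : ℤ × ℤ) (q' : Z2.Walk u' v'), u'.1 = a ∧ v'.1 = b ∧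
        ∀ w ∈ q'.support, w ∈ q.support ∧ a ≤ w.1 ∧ w.1 ≤ b := by
    intro u v q
    induction q with
    | @nil u =>
      intro hv _
      by_cases hua : a < u.1
      · left
        intro w hw
        simp only [SimpleGraph.Walk.support_nil, List.mem_singleton] at hw
        rw [hw]
        exact hua
      · right
        refine ⟨u, u, SimpleGraph.Walk.nil, by omega, hv, ?_⟩
        intro w hw
        simp only [SimpleGraph.Walk.support_nil, List.mem_singleton] at hw ⊢
        subst hw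
        exact ⟨rfl, by omega, hv.le⟩
    | @cons u v w hadj q ih =>
      intro hw hb
      have hb' : ∀ x ∈ q.support, x.1 ≤ b := fun x hx => hb x (by
        rw [SimpleGraph.Walk.support_cons]
        exact List.mem_cons_of_mem _ hx)
      rcases ih hw hb' with hq | ⟨u', v', q', h1, h2, h3⟩
      · by_cases hua : a < u.1
        · left
          intro x hx
          rw [SimpleGraph.Walk.support_cons, List.mem_cons] at hx
          rcases hx with rfl | hx
          · exact hua
          · exact hq x hx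
        · right
          have hv := hq v q.start_mem_support
          have := abs_le.1 (adj_fst hadj)
          have hua' : u.1 = a := by omega
          refine ⟨u, w, SimpleGraph.Walk.cons hadj q, hua', hw, ?_⟩
          intro x hx
          refine ⟨hx, ?_, hb x hx⟩
          rw [SimpleGraph.Walk.support_cons, List.mem_cons] at hx
          rcases hx with rfl | hx
          · exact hua'.ge
          · exact (hq x hx).le
      · right
        refine ⟨u', v', q', h1, h2, fun x hx => ⟨?_, (h3 x hx).2⟩⟩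
        rw [SimpleGraph.Walk.support_cons]
        exact List.mem_cons_of_mem _ (h3 x hx).1
  intro u v q hu hv
  obtain ⟨v', q', hv', hq'⟩ := h1 q (by omega) hv
  rcases h2 q' hv' (fun w hw => (hq' w hw).2) with h | ⟨u', v'', q'', hu', hv'', hq''⟩
  · have := h u q'.start_mem_support
    omega
  · exact ⟨u', v'', q'', hu', hv'', fun w hw => ⟨(hq' w (hq'' w hw).1).1, (hq'' w hw).2⟩⟩

theorem zc_support {u v : ℤ × ℤ} (q : Z2.Walk u v) : ZC {w | w ∈ q.support} := by
  classical
  have h0 : ∀ x ∈ q.support, ∃ p : Z2.Walk u x, ∀ w ∈ p.support, w ∈ q.support := fun x hx =>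
    ⟨q.takeUntil x hx, fun w hw => q.support_takeUntil_subset_support hx hw⟩
  intro x hx y hy
  obtain ⟨p, hp⟩ := h0 x hx
  obtain ⟨r, hr⟩ := h0 y hy
  refine ⟨p.reverse.append r, ?_⟩
  intro w hw
  rw [SimpleGraph.Walk.mem_support_append_iff, SimpleGraph.Walk.support_reverse,
    List.mem_reverse] at hw
  rcases hw with hw | hw
  · exact hp w hw
  · exact hr w hw

theorem two_pow_big : ∀ l : ℕ, 20 ≤ l → (l + 1) ^ 2 * (2 * (l + 2) ^ 2 + 1) ≤ 2 ^ l := by
  intro l hl
  induction l, hl using Nat.le_induction with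
  | base => norm_num
  | succ l hl ih =>
    obtain ⟨n, rfl⟩ : ∃ n, l = n + 20 := ⟨l - 20, by omega⟩
    have : (n + 20 + 1 + 1) ^ 2 * (2 * (n + 20 + 1 + 2) ^ 2 + 1) ≤
        2 * ((n + 20 + 1) ^ 2 * (2 * (n + 20 + 2) ^ 2 + 1)) := by
      ring_nf
      gcongr <;> omega
    rw [pow_succ 2]
    omega

theorem cap : CapStmt := by
  classical
  refine ⟨20, fun l hl C C' hC hC' => ?_⟩
  have hbig := two_pow_big l hl
  have hbig' : ((l : ℤ) + 1) ^ 2 * (2 * ((l : ℤ) + 2) ^ 2 + 1) ≤ 2 ^ l := by exact_mod_cast hbig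
  set H : ℤ := 2 * ((l : ℤ) + 2) ^ 2 with hH
  have e2 : (2 : ℤ) ^ (l + 2) = 4 * 2 ^ l := by ring
  have e3 : (2 : ℤ) ^ (l + 3) = 8 * 2 ^ l := by ring
  have hp : (0 : ℤ) < 2 ^ l := by positivity
  obtain ⟨zl, hzl, hzl1⟩ := hC.2.2.1
  obtain ⟨zr, hzr, hzr1⟩ := hC.2.2.2.1
  obtain ⟨q, hq⟩ := hC.2.1 zl (by exact_mod_cast hzl) zr (by exact_mod_cast hzr)
  have e1 : (3 : ℤ) * 2 ^ (l - 1) ≤ 3 * 2 ^ l := by
    have : (2 : ℤ) ^ (l - 1) ≤ 2 ^ l := pow_le_pow_right₀ (by norm_num) (by omega)
    linarith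
  -- one common point in every window
  have key : ∀ m : ℕ, m < (l + 1) ^ 2 → ∃ z ∈ C ∩ C',
      3 * 2 ^ l + m * (H + 1) ≤ z.1 ∧ z.1 ≤ 3 * 2 ^ l + m * (H + 1) + H := by
    intro m hm
    have hm' : (m : ℤ) + 1 ≤ ((l : ℤ) + 1) ^ 2 := by exact_mod_cast hm
    have hH0 : 0 ≤ H := by positivity
    set x : ℤ := 3 * 2 ^ l + m * (H + 1) with hx
    have hx1 : 3 * 2 ^ l ≤ x := by
      rw [hx]
      have : (0 : ℤ) ≤ m * (H + 1) := by positivity
      linarith
    have hx2 : x + H ≤ 4 * 2 ^ l := by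
      rw [hx]
      nlinarith [mul_le_mul_of_nonneg_right hm' (by linarith : 0 ≤ H + 1)]
    obtain ⟨u', v', q', hu', hv', hq'⟩ := cross (a := x) (b := x + H) (by linarith) q
      (by linarith) (by linarith)
    have hsub : {w | w ∈ q'.support} ⊆ Rect (x, 0) (x + H, H) := by
      intro w hw
      have h1 := hq' w hw
      have h2 := hC.1 w (by exact_mod_cast hq w h1.1)
      refine ⟨h1.2.1, h1.2.2, h2.2.2.1, ?_⟩
      have : 2 * ((l : ℤ) + 1) ^ 2 ≤ H := by
        rw [hH]
        nlinarith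
      exact h2.2.2.2.trans this
    obtain ⟨z, hz, hzB⟩ := hC'.2.2.2.2 x hx1 (by rw [e3]; linarith) {w | w ∈ q'.support} hsub
      (zc_support q') ⟨u', q'.start_mem_support, hu'⟩ ⟨v', q'.end_mem_support, hv'⟩
    refine ⟨z, Finset.mem_inter.2 ⟨by exact_mod_cast hq z (hq' z hzB).1, hz⟩,
      (hq' z hzB).2.1, (hq' z hzB).2.2⟩
  choose! f hf using key
  refine ⟨(Finset.range ((l + 1) ^ 2)).image f, ?_, ?_⟩
  · intro z hz
    obtain ⟨m, hm, rfl⟩ := Finset.mem_image.1 hz
    exact (hf m (Finset.mem_range.1 hm)).1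
  · rw [Finset.card_image_of_injOn, Finset.card_range]
    intro m hm m' hm' hmm
    have h1 := (hf m (Finset.mem_range.1 (by exact_mod_cast hm))).2
    have h2 := (hf m' (Finset.mem_range.1 (by exact_mod_cast hm'))).2
    rw [hmm] at h1
    have hH0 : 0 ≤ H := by positivity
    by_contra hne
    rcases Nat.lt_or_gt_of_ne hne with h | h
    · have h3 : (m : ℤ) + 1 ≤ m' := by exact_mod_cast h
      nlinarith
    · have h3 : (m' : ℤ) + 1 ≤ m := by exact_mod_cast h
      nlinarith

end Pool.Agent.TP.H53
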