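import Pool.Agent.Helper28_TP.DyS

/-!
Squad TP, module FINC: structures of all scales, glued, give an infinite cluster.
-/

set_option autoImplicit false

namespace Pool.Agent.TP.H53

variable {k : ℕ}

theorem conn_mono {N : Finset (Pt k)} {A A' : Set (Pt k)} (h : A ⊆ A') {x y : Pt k}
    (hc : Conn N A x y) : Conn N A' x y :=
  Relation.ReflTransGen.mono (r := fun u v => v - u ∈ N ∧ v ∈ A)
    (p := fun u v => v - u ∈ N ∧ v ∈ A') (fun _ _ hab => ⟨hab.1, h hab.2⟩) x y hc

theorem unit_mem {N : Finset (Pt k)} {ρ : ℕ} (hN : GoodN N ρ) (i : Fin (k + 2)) :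
    (Pi.single i (1 : ℤ) : Pt k) ∈ N := by
  have h1 := hN.perm _ hN.unit (Equiv.swap 0 i)
  convert h1 using 1
  funext j
  by_cases hj : j = i
  · subst hj
    simp
  · rw [Pi.single_eq_of_ne hj, Pi.single_eq_of_ne]
    intro h2
    apply hj
    have := congrArg (Equiv.swap 0 i) h2
    simpa using this

theorem neg_unit_mem {N : Finset (Pt k)} {ρ : ℕ} (hN : GoodN N ρ) (i : Fin (k + 2)) :
    (Pi.single i (-1 : ℤ) : Pt k) ∈ N := by
  have h1 := hN.neg _ (unit_mem hN i) i
  convert h1 using 1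
  funext j
  by_cases hj : j = i
  · subst hj
    simp
  · rw [Pi.single_eq_of_ne hj, Function.update_of_ne hj, Pi.single_eq_of_ne hj]

theorem conn_box {N : Finset (Pt k)} {ρ : ℕ} (hN : GoodN N ρ) (c : Pt k) (n : ℕ) :
    ∀ (m : ℕ) (x y : Pt k), ∑ i, (x i - y i).natAbs = m → x ∈ bx c n → y ∈ bx c n →
      Conn N ↑(bx c n) x y := by
  intro m
  induction m with
  | zero =>
    intro x y hm _ _
    have : x = y := by
      funext i
      have h1 := (Finset.sum_eq_zero_iff.1 hm) i (Finset.mem_univ i)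
      omega
    rw [this]
    exact Relation.ReflTransGen.refl
  | succ m ih =>
    intro x y hm hx hy
    have : ∃ i, x i ≠ y i := by
      by_contra h
      push Not at h
      have : ∑ i, (x i - y i).natAbs = 0 := Finset.sum_eq_zero fun i _ => by rw [h i]; simp
      omega
    obtain ⟨i, hi⟩ := this
    set ε : ℤ := if x i < y i then 1 else -1 with hε
    have hε' : (x i < y i ∧ ε = 1) ∨ (y i < x i ∧ ε = -1) := by
      by_cases h : x i < y i
      · left
        exact ⟨h, by rw [hε, if_pos h]⟩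
      · right
        exact ⟨by omega, by rw [hε, if_neg h]⟩
    set x' : Pt k := Function.update x i (x i + ε) with hx'
    have hmem : x' ∈ bx c n := by
      rw [mem_bx] at hx hy ⊢
      intro j
      by_cases hj : j = i
      · subst hj
        rw [hx', Function.update_self]
        have h1 := abs_le.1 (hx j)
        have h2 := abs_le.1 (hy j)
        rw [abs_le]
        rcases hε' with ⟨h3, h4⟩ | ⟨h3, h4⟩ <;> rw [h4] <;> constructor <;> omega
      · rw [hx', Function.update_of_ne hj]
        exact hx j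
    have hd : ∑ j, (x' j - y j).natAbs = m := by
      have e1 : ∑ j, (x j - y j).natAbs = (x i - y i).natAbs +
          ∑ j ∈ Finset.univ.erase i, (x j - y j).natAbs :=
        (Finset.add_sum_erase _ _ (Finset.mem_univ i)).symm
      have e2 : ∑ j, (x' j - y j).natAbs = (x' i - y i).natAbs +
          ∑ j ∈ Finset.univ.erase i, (x' j - y j).natAbs :=
        (Finset.add_sum_erase _ _ (Finset.mem_univ i)).symm
      have e3 : ∑ j ∈ Finset.univ.erase i, (x' j - y j).natAbs =
          ∑ j ∈ Finset.univ.erase i, (x j - y j).natAbs := by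
        refine Finset.sum_congr rfl fun j hj => ?_
        rw [hx', Function.update_of_ne (Finset.ne_of_mem_erase hj)]
      rw [e2, e3, hx', Function.update_self]
      rcases hε' with ⟨h3, h4⟩ | ⟨h3, h4⟩ <;> rw [h4] <;> omega
    refine Relation.ReflTransGen.head ⟨?_, hmem⟩ (ih x' y hd hmem hy)
    have : x' - x = Pi.single i ε := by
      funext j
      by_cases hj : j = i
      · subst hj
        simp [hx']
      · simp [hx', hj]
    rw [this]
    rcases hε' with ⟨_, h4⟩ | ⟨_, h4⟩ <;> rw [h4]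
    · exact unit_mem hN i
    · exact neg_unit_mem hN i

theorem conn_box' {N : Finset (Pt k)} {ρ : ℕ} (hN : GoodN N ρ) {c : Pt k} {n : ℕ}
    {x y : Pt k} (hx : x ∈ bx c n) (hy : y ∈ bx c n) : Conn N ↑(bx c n) x y :=
  conn_box hN c n _ x y rfl hx hy

theorem finc : FincStmt := by
  intro k N ρ D B l₁ O O' C V hN hB hBD hl₁ hH hstr hglue hbox
  have step : ∀ l ≥ l₁, ∃ S : Finset (Pt k), (∀ x ∈ S, ∀ y ∈ S, Conn N ↑S x y) ∧
      (∀ z ∈ C l, ∃ x ∈ S, x ∈ bx (cen k D z) B) ∧ ∀ y ∈ S, Conn N (O ∪ O') 0 y := by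
    intro l hl
    induction l, hl using Nat.le_induction with
    | base =>
      obtain ⟨hC, ⟨S, hSV, hSc, hSz⟩, hVO⟩ := hstr l₁ le_rfl
      refine ⟨S, hSc, hSz, fun y hy => ?_⟩
      obtain ⟨z, hz, hz1⟩ := hC.2.2.1
      obtain ⟨x, hxS, hxb⟩ := hSz z hz
      have hz2 := hC.1 z hz
      have hxbox : x ∈ bx (0 : Pt k) (D * 2 ^ (l₁ + 1)) := by
        rw [mem_bx] at hxb ⊢
        intro i
        have h1 := abs_le.1 (hxb i)
        obtain ⟨l, rfl⟩ : ∃ l, l₁ = l + 1 := ⟨l₁ - 1, by omega⟩
        simp only [Nat.add_sub_cancel] at hz1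
        have hp : (1 : ℤ) ≤ 2 ^ l := one_le_pow₀ (by norm_num)
        have hBD' : 2 * (B : ℤ) < D := by exact_mod_cast hBD
        have hB' : (1 : ℤ) ≤ B := by exact_mod_cast hB
        have hH' : 2 * (((l + 1 : ℕ) : ℤ) + 1) ^ 2 < 2 ^ (l + 1) := by exact_mod_cast hH
        have e4 : (2 : ℤ) ^ (l + 1) = 2 * 2 ^ l := by ring
        have e5 : (2 : ℤ) ^ (l + 1 + 1) = 4 * 2 ^ l := by ring
        rw [e4] at hz2 hH'
        simp only [Pi.zero_apply, sub_zero]
        push_cast
        rw [e5, abs_le]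
        have hDp : (D : ℤ) ≤ D * 2 ^ l := by nlinarith
        have hcen : 0 ≤ cen k D z i ∧ cen k D z i ≤ D * (3 * 2 ^ l) := by
          unfold cen
          split_ifs
          · constructor
            · exact mul_nonneg (by omega) (by nlinarith)
            · exact mul_le_mul_of_nonneg_left hz1 (by omega)
          · constructor
            · exact mul_nonneg (by omega) hz2.2.2.1
            · exact mul_le_mul_of_nonneg_left (by nlinarith) (by omega)
          · constructor
            · exact le_rfl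
            · positivity
        constructor
        · nlinarith
        · nlinarith
      have c1 : Conn N (O ∪ O') 0 x := by
        refine conn_mono (fun v hv => Or.inr (hbox hv)) (conn_box' hN ?_ hxbox)
        rw [mem_bx]
        intro i
        simp
      exact c1.trans (conn_mono (fun v hv => Or.inl (hVO (hSV hv))) (hSc x hxS y hy))
    | succ l hl ih =>
      obtain ⟨S, hSc, hSz, hS0⟩ := ih
      obtain ⟨hC', ⟨S', hSV', hSc', hSz'⟩, hVO'⟩ := hstr (l + 1) (by omega)
      refine ⟨S', hSc', hSz', fun y hy => ?_⟩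
      obtain ⟨z, hz, hzO⟩ := hglue l hl
      rw [Finset.mem_inter] at hz
      obtain ⟨x, hxS, hxb⟩ := hSz z hz.1
      obtain ⟨x', hxS', hxb'⟩ := hSz' z hz.2
      refine (hS0 x hxS).trans ?_
      refine Relation.ReflTransGen.trans (b := x') ?_ ?_
      · exact conn_mono (fun v hv => Or.inr (hzO hv)) (conn_box' hN hxb hxb')
      · exact conn_mono (fun v hv => Or.inl (hVO' (hSV' hv))) (hSc' x' hxS' y hy)
  intro hfin
  have hb := (hfin.image (fun x : Pt k => x 0)).bddAbove
  obtain ⟨M, hM⟩ := hb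
  set l := max l₁ M.toNat with hl
  obtain ⟨S, hSc, hSz, hS0⟩ := step l (le_max_left _ _)
  obtain ⟨z, hz, hz1⟩ := (hstr l (le_max_left _ _)).1.2.2.2.1
  obtain ⟨x, hxS, hxb⟩ := hSz z hz
  have h1 : x 0 ≤ M := hM ⟨x, hS0 x hxS, rfl⟩
  rw [mem_bx] at hxb
  have h2 := abs_le.1 (hxb 0)
  have h3 : cen k D z 0 = D * 2 ^ (l + 2) := by
    unfold cen
    rw [if_pos rfl, hz1]
  have hBD' : 2 * (B : ℤ) < D := by exact_mod_cast hBD
  have hB' : (1 : ℤ) ≤ B := by exact_mod_cast hB
  have h4 : (l : ℤ) < 2 ^ l := by exact_mod_cast Nat.lt_two_pow_self (n := l)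
  have h5 : M ≤ l := by
    have : M ≤ (M.toNat : ℤ) := Int.self_le_toNat M
    have h6 : (M.toNat : ℤ) ≤ l := by exact_mod_cast le_max_right _ _
    omega
  have h7 : (2 : ℤ) ^ (l + 2) = 4 * 2 ^ l := by ring
  rw [h3, h7] at h2
  nlinarith

end Pool.Agent.TP.H53
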