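import Pool.Agent.Helper28_TP.DyS

/-!
Squad TP, module MRG: superposition of two Poisson processes.
-/

set_option autoImplicit false

namespace Pool.Agent.TP.H53

open MeasureTheory ProbabilityTheory
open scoped ENNReal NNReal

section Gen

variable {ι : Type*} {X Y : ι → Type*} [∀ i, MeasurableSpace (X i)] [∀ i, MeasurableSpace (Y i)]
  (μ : (i : ι) → Measure (X i)) [∀ i, IsProbabilityMeasure (μ i)]
  (ν : (i : ι) → Measure (Y i)) [∀ i, IsProbabilityMeasure (ν i)]

/-- pairs of two independent families -/
theorem prod_infinitePi :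
    ((Measure.infinitePi μ).prod (Measure.infinitePi ν)).map
      (fun (x : (∀ i, X i) × (∀ i, Y i)) i => (x.1 i, x.2 i))
      = Measure.infinitePi (fun i => (μ i).prod (ν i)) := by
  refine Measure.eq_infinitePi _ fun s t ht => ?_
  have hm : Measurable (fun (x : (∀ i, X i) × (∀ i, Y i)) i => (x.1 i, x.2 i)) := by fun_prop
  have hs : MeasurableSet (Set.pi (s : Set ι) t) := .pi s.countable_toSet fun _ _ => ht _
  rw [Measure.map_apply hm hs, Measure.prod_apply (hm hs)]
  have e1 : ∀ x : (∀ i, X i), Measure.infinitePi ν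
      (Prod.mk x ⁻¹' ((fun (x : (∀ i, X i) × (∀ i, Y i)) i => (x.1 i, x.2 i)) ⁻¹'
        (Set.pi (s : Set ι) t))) = ∏ i ∈ s, ν i (Prod.mk (x i) ⁻¹' t i) := by
    intro x
    have : (Prod.mk x ⁻¹' ((fun (x : (∀ i, X i) × (∀ i, Y i)) i => (x.1 i, x.2 i)) ⁻¹'
        (Set.pi (s : Set ι) t))) = Set.pi (s : Set ι) (fun i => Prod.mk (x i) ⁻¹' t i) := by
      ext y
      simp [Set.mem_pi]
    rw [this, Measure.infinitePi_pi]
    intro i _
    exact measurable_prodMk_left (ht i)
  simp_rw [e1]
  have hi : iIndepFun (fun i (ω : ∀ i, X i) => ν i (Prod.mk (ω i) ⁻¹' t i))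
      (Measure.infinitePi μ) :=
    iIndepFun_infinitePi (X := fun i (a : X i) => ν i (Prod.mk a ⁻¹' t i))
      (fun i => measurable_measure_prodMk_left (ht i))
  rw [lintegral_prod_eq_prod_lintegral_of_indepFun s _ hi
    (fun i => (measurable_measure_prodMk_left (ht i)).comp (measurable_pi_apply i))]
  refine Finset.prod_congr rfl fun i _ => ?_
  rw [Measure.prod_apply (ht i)]
  have := (measurePreserving_eval_infinitePi μ i).lintegral_comp
    (f := fun a => ν i (Prod.mk a ⁻¹' t i)) (measurable_measure_prodMk_left (ht i))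
  rw [← this]

end Gen

section Seq

variable {M : Type*} [MeasurableSpace M]

/-- first the `n` terms of the first sequence, then the second sequence -/
def cat (n : ℕ) (x : (ℕ → M) × (ℕ → M)) : ℕ → M :=
  fun j => if j < n then x.1 j else x.2 (j - n)

theorem measurable_cat (n : ℕ) : Measurable (cat (M := M) n) := by
  rw [measurable_pi_iff]
  intro j
  unfold cat
  by_cases hj : j < n
  · simp only [hj, if_true]
    fun_prop
  · simp only [hj, if_false]
    fun_prop

variable (μ : Measure M) [IsProbabilityMeasure μ]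

theorem map_cat (n : ℕ) :
    ((Measure.infinitePi (fun _ : ℕ => μ)).prod (Measure.infinitePi (fun _ : ℕ => μ))).map (cat n)
      = Measure.infinitePi (fun _ : ℕ => μ) := by
  refine Measure.eq_infinitePi _ fun s t ht => ?_
  have hs : MeasurableSet (Set.pi (s : Set ℕ) t) := .pi s.countable_toSet fun _ _ => ht _
  rw [Measure.map_apply (measurable_cat n) hs]
  have e1 : cat (M := M) n ⁻¹' (Set.pi (s : Set ℕ) t) =
      (Set.pi ((s.filter (fun j => j < n) : Finset ℕ) : Set ℕ) t) ×ˢ
      (Set.pi (((s.filter (fun j => ¬ j < n)).image (fun j => j - n) : Finset ℕ) : Set ℕ)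
        (fun j => t (j + n))) := by
    ext x
    simp only [Set.mem_preimage, Set.mem_pi, Set.mem_prod, Finset.mem_coe, Finset.mem_filter,
      Finset.mem_image]
    constructor
    · intro h
      constructor
      · rintro j ⟨hj, hn⟩
        have := h j hj
        simpa [cat, hn] using this
      · rintro _ ⟨j, ⟨hj, hn⟩, rfl⟩
        have := h j hj
        rw [Nat.sub_add_cancel (not_lt.1 hn)]
        simpa [cat, hn] using this
    · rintro ⟨h1, h2⟩ j hj
      by_cases hn : j < n
      · simpa [cat, hn] using h1 j ⟨hj, hn⟩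
      · have := h2 (j - n) ⟨j, ⟨hj, hn⟩, rfl⟩
        rw [Nat.sub_add_cancel (not_lt.1 hn)] at this
        simpa [cat, hn] using this
  rw [e1, Measure.prod_prod, Measure.infinitePi_pi _ (fun i _ => ht i),
    Measure.infinitePi_pi _ (fun i _ => ht _), Finset.prod_image]
  · rw [← Finset.prod_filter_mul_prod_filter_not s (fun j => j < n) (fun i => μ (t i))]
    congr 1
    refine Finset.prod_congr rfl fun j hj => ?_
    rw [Finset.mem_filter] at hj
    rw [Nat.sub_add_cancel (not_lt.1 hj.2)]
  · intro a ha b hb hab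
    simp only [Finset.coe_filter, Set.mem_ofPred_eq, not_lt] at ha hb
    simp only at hab
    omega

/-- superposition in one cell -/
def mrg (x : (ℕ × (ℕ → M)) × (ℕ × (ℕ → M))) : ℕ × (ℕ → M) :=
  (x.1.1 + x.2.1, cat x.1.1 (x.1.2, x.2.2))

theorem measurable_mrg : Measurable (mrg (M := M)) := by
  unfold mrg
  refine Measurable.prodMk (by fun_prop) ?_
  have h1 : Measurable (fun p : ℕ × ((ℕ → M) × (ℕ → M)) => cat p.1 p.2) :=
    measurable_from_prod_countable_right fun n => measurable_cat n
  have h2 : Measurable (fun x : (ℕ × (ℕ → M)) × (ℕ × (ℕ → M)) =>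
      ((x.1.1, (x.1.2, x.2.2)) : ℕ × ((ℕ → M) × (ℕ → M)))) := by fun_prop
  exact h1.comp h2

theorem map_mrg (a b : ℝ≥0) :
    (((poissonMeasure a).prod (Measure.infinitePi (fun _ : ℕ => μ))).prod
      ((poissonMeasure b).prod (Measure.infinitePi (fun _ : ℕ => μ)))).map mrg
      = (poissonMeasure (a + b)).prod (Measure.infinitePi (fun _ : ℕ => μ)) := by
  set Q := Measure.infinitePi (fun _ : ℕ => μ) with hQ
  symm
  refine Measure.prod_eq fun s t hs ht => ?_
  rw [Measure.map_apply measurable_mrg (hs.prod ht)]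
  have hE : MeasurableSet (mrg (M := M) ⁻¹' s ×ˢ t) := measurable_mrg (hs.prod ht)
  rw [← lintegral_indicator_one hE, lintegral_prod _ (measurable_one.indicator hE).aemeasurable]
  have e1 : ∀ x : ℕ × (ℕ → M), ∫⁻ y, (mrg (M := M) ⁻¹' s ×ˢ t).indicator 1 (x, y)
      ∂((poissonMeasure b).prod Q) = poissonMeasure b {n | x.1 + n ∈ s} *
        Q {m | cat x.1 (x.2, m) ∈ t} := by
    intro x
    have : ∀ y : ℕ × (ℕ → M), (mrg (M := M) ⁻¹' s ×ˢ t).indicator
        (1 : (ℕ × (ℕ → M)) × (ℕ × (ℕ → M)) → ℝ≥0∞) (x, y) =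
        ({n | x.1 + n ∈ s} ×ˢ {m | cat x.1 (x.2, m) ∈ t}).indicator
          (1 : ℕ × (ℕ → M) → ℝ≥0∞) y := by
      intro y
      simp only [Set.indicator, Pi.one_apply]
      rfl
    simp_rw [this]
    rw [lintegral_indicator_one, Measure.prod_prod]
    refine MeasurableSet.prod (Set.to_countable _).measurableSet ?_
    have : Measurable (fun m : ℕ → M => cat x.1 (x.2, m)) :=
      (measurable_cat x.1).comp measurable_prodMk_left
    exact this ht
  simp_rw [e1]
  rw [lintegral_prod]
  · have e2 : ∀ n : ℕ, ∫⁻ m, poissonMeasure b {k | n + k ∈ s} * Q {m' | cat n (m, m') ∈ t} ∂Q =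
        poissonMeasure b {k | n + k ∈ s} * Q t := by
      intro n
      rw [lintegral_const_mul]
      · congr 1
        conv_rhs => rw [hQ, ← map_cat μ n, Measure.map_apply (measurable_cat n) ht,
          Measure.prod_apply (measurable_cat n ht)]
        rfl
      · exact measurable_measure_prodMk_left (measurable_cat n ht)
    simp_rw [e2]
    rw [lintegral_mul_const _ (Measurable.of_discrete), ← poissonMeasure_conv_poissonMeasure a b,
      Measure.conv, Measure.map_apply (by fun_prop) hs, Measure.prod_apply (by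
        exact (Set.to_countable _).measurableSet)]
    rfl
  · apply Measurable.aemeasurable
    apply Measurable.mul
    · exact (Measurable.of_discrete (f := fun n : ℕ => poissonMeasure b {k | n + k ∈ s})).comp
        measurable_fst
    · have : Measurable (fun p : ℕ × (ℕ → M) => Q {m | cat p.1 (p.2, m) ∈ t}) :=
        measurable_from_prod_countable_right fun n =>
          measurable_measure_prodMk_left (measurable_cat n ht)
      exact this

end Seq

theorem mrgThm : MrgStmt := by
  intro k l₁ l₂ s h1 h2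
  have h0 : IsProbabilityMeasure ((volume : Measure ℝ).restrict (Set.Ico (0 : ℝ) 1)) :=
    ⟨by simp⟩
  have hm : IsProbabilityMeasure (markLaw k s) := by
    unfold markLaw walkLaw stepLaw unif
    infer_instance
  refine ⟨fun x z => mrg (x.1 z, x.2 z), ⟨?_, ?_⟩, ?_⟩
  · rw [measurable_pi_iff]
    intro z
    exact measurable_mrg.comp (by fun_prop)
  · unfold confLaw
    have e : (fun (x : Cf k × Cf k) (z : Pt k) => mrg (x.1 z, x.2 z)) =
        (fun (y : Pt k → (ℕ × (ℕ → Mk k)) × (ℕ × (ℕ → Mk k))) (z : Pt k) => mrg (y z)) ∘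
        (fun (x : Cf k × Cf k) (z : Pt k) => (x.1 z, x.2 z)) := rfl
    rw [e, ← Measure.map_map (by
      rw [measurable_pi_iff]
      intro z
      exact measurable_mrg.comp (by fun_prop)) (by fun_prop), prod_infinitePi,
      Measure.infinitePi_map_pi _ (fun _ => measurable_mrg)]
    simp_rw [map_mrg]
    rw [Real.toNNReal_add h1 h2]
  · intro h w i ω
    ext c
    simp only [occ, alive, pos, mrg, Set.mem_union, Set.mem_ofPred_eq]
    constructor
    · rintro ⟨⟨z, j⟩, hj, hc⟩
      simp only at hj hc
      by_cases hn : j < (ω.1 z).1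
      · left
        refine ⟨(z, j), hn, ?_⟩
        simpa [cat, hn] using hc
      · right
        refine ⟨(z, j - (ω.1 z).1), ?_, ?_⟩
        · simp only
          omega
        · simpa [cat, hn] using hc
    · rintro (⟨⟨z, j⟩, hj, hc⟩ | ⟨⟨z, j⟩, hj, hc⟩)
      · simp only at hj hc
        refine ⟨(z, j), ?_, ?_⟩
        · simp only
          omega
        · simpa [cat, hj] using hc
      · simp only at hj hc
        refine ⟨(z, (ω.1 z).1 + j), ?_, ?_⟩
        · simp only
          omega
        · simpa [cat] using hc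

end Pool.Agent.TP.H53
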